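import Pool.Agent.Q20.TW.Stp

/-!
# Stark's conjecture for abelian extensions of totally real fields
-/

set_option autoImplicit false

namespace Pool.Agent.Results.MP_46b841_nt.AbelianOverTotallyRealFields

open NumberField Pool.Agent.Q20.RS.RL

/-- **Theorem.** Let `K` be a number field.
(0) The numbers `A(χ)` of characters at all sufficiently large levels are Stark's numbers.
(1) Let `ψ` be a linear character of `Gal(K̄/F)` and `η` a quadratic character which is trivial on the
decomposition groups of the finite places at which `ψ` is ramified. There are finite extensions
`F₁, F₂ ⊆ F₃` of `F` over which `ψ` becomes unramified at all finite places, such that
`ψ + Ind ψ|F₃ = ψη + Ind ψ|F₁ + Ind ψ|F₂`; so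
`L(s, ψ) L(s, ψ|F₃) = L(s, ψη) L(s, ψ|F₁) L(s, ψ|F₂)`, and the same holds for Stark's numbers.
(2) Such `η` exist with prescribed signs at the real places.
(3) A character of `Gal(K̄/F)`, `F` totally real, is an integral combination of characters induced
from linear characters over totally real fields if and only if the complex conjugations commute in
the representation.
(4) An additive and inductive function of characters with values in any abelian group which vanishes
at the linear characters unramified at all finite places is invariant under the twists of (1), and
vanishes at the characters of (3) if it vanishes at the linear characters of one parity over totally
real fields.
(5) Grant Stark's equality `A(ψ)^σ = A(ψ^σ)` for the linear characters which are unramified at all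
finite places. Then it holds for `ψη` if and only if it holds for `ψ`, so over totally real fields
for a linear character if and only if for a totally odd twist, and it holds for all the characters
of (3) if it holds for the totally odd linear characters (Siegel). -/
theorem result (K : Type) [Field K] [NumberField K] : WellDefined K ∧ Relations K ∧ Twists K ∧
    InductionReal K ∧ Functions K ∧ StarkExact K :=
  ⟨well_defined, relations, twists, induction_real, functions, stark_exact⟩

end Pool.Agent.Results.MP_46b841_nt.AbelianOverTotallyRealFields
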