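import Pool.Agent.Q20.RS.Cgp

/-!
# Artin L-functions and Stark's numbers up to powers: reduction to class group characters
-/

set_option autoImplicit false

namespace Pool.Agent.Results.MP_46b841_nt.ClassGroupLFunctions

open NumberField Pool.Agent.Q20.RS

/-- **Theorem.** Let `K` be a totally real number field (e.g. `ℚ`), `s = 1` or `s = -1`, `ε` a
quadratic or trivial character of `Gal(K̄/K)` with value `s` at the complex conjugations, `M > 0`,
`S` a finite set of primes and `L` a finite extension of `K`. A level is a finite normal extension
`N` of `K` with a finite set `T` of primes (stable, containing primes above the ramified primes) and
a map `λ ∘ φ` as in Stark's conjecture.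
(0) The numbers `A(χ)` and L-functions `L(z, χ)` of characters `χ` of `Gal(K̄/F)` at all sufficiently
large levels are Stark's numbers and the Artin L-functions of the representations of `Gal(N/F)`.
(1) For every virtual character `f` of `Gal(K̄/K)` a positive multiple of `f` is an integral
combination of characters induced from: trivial characters; class group characters, i.e. everywhere
unramified linear characters `ψ` of `Gal(K̄/F)`, `F` totally complex of degree divisible by `M`, in
which the places above `S` split completely, such that the completions of `F` above `S` contain
those of `L`; linear characters `ψ` over totally real fields with `ψ(c) = s` for all complex
conjugations such that for one prime `p` the character `ε ψ` is unramified outside `p` and trivial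
on the decomposition groups above the primes of `S` other than `p`.
(2) For every character `χ` of `Gal(K̄/F)`, `F/K` finite, there are `m > 0`, linear characters `ψ_i`
of these three kinds and integers `e_i` with `L(z, χ)^m = ∏ L(z, ψ_i)^{e_i}` for `Re z > 1` and
`A(χ)^m = ∏ A(ψ_i)^{e_i}` at all sufficiently large levels.
(3) If Stark's equality holds up to roots of unity for trivial characters (class number formula),
for totally odd linear characters over totally real fields (Siegel) and for class group characters
as in (1), then it holds up to roots of unity for all characters of all finite extensions of `K`.
(4) The same for the algebraicity of Stark's numbers. -/
theorem result (K : Type) [Field K] [NumberField K] [IsTotallyReal K] :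
    WellDefined K ∧ Induction K ∧ Products K ∧ Stark K ∧ Algebraicity K :=
  ⟨well_defined, induction, products, stark, algebraicity⟩

end Pool.Agent.Results.MP_46b841_nt.ClassGroupLFunctions
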