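import Pool.Agent.Q20.CU.Main

/-!
# Stark's conjecture is a statement on units of cyclic extensions ramified above one prime number
-/

set_option autoImplicit false
set_option linter.unusedSectionVars false

namespace Pool.Agent.Results.MP_46b841_nt.CyclicUnitsDecide

open NumberField Pool.Agent.Q20.CU

/-- **Theorem.** Let `Q` be a finite set of prime numbers. Stark's conjecture (for all Galois extensions
of number fields, all characters, all `S`, `φ` and `σ`) holds if and only if the unit statement holds for
the cyclic extensions `L/E` of degree greater than `1` for which (a) `E` is totally complex, all ramified
primes lie above one prime number and the primes above the other elements of `Q` split completely, or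
(b) `E` is totally complex and the degree is a power of an odd prime, or (c) the degree is a power of `2`
and `L` is totally complex or unramified over `E` at all primes. -/
theorem result (Q : Finset ℕ) (hQ : ∀ q ∈ Q, q.Prime) :
    StarkConjecture ↔ ∀ (E L : Type) [Field E] [NumberField E] [Field L] [NumberField L]
      [Algebra E L] [IsGalois E L], Special E L Q → UnitStatement E L :=
  main hQ

end Pool.Agent.Results.MP_46b841_nt.CyclicUnitsDecide
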