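import Pool.Agent.Q20.RL.Prd

/-!
# The defect of Stark's conjecture is local
-/

set_option autoImplicit false

namespace Pool.Agent.Results.MP_46b841_nt.StarkDefectIsLocal

open NumberField Pool.Agent.Q20.RS.RL

/-- **Theorem.** Let `K` be a number field, `T` a set of prime numbers, `M > 0`. For a finite
extension `F` of `K` let `V` be the set of the virtual characters of `Gal(K̄/F)` a positive multiple
of which is an integral combination of characters induced from linear characters of finite
extensions of `F` which are unramified at all finite places outside `T` (for empty `T`: class group
characters).
(0) The numbers `A(χ)` and L-functions `L(s, χ)` of characters at all sufficiently large levels are
Stark's numbers and the Artin L-functions.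
(1) The local-global principle for `V`; trivial characters and totally complex fields of degree
divisible by `M` suffice. (2) Examples. (3) The quotient of the rational character ring by `V` is
the direct sum of the local quotients.
(4) Additive and inductive functions of characters which vanish at trivial and class group
characters are sums of unique local constants.
(5) Powers of the Artin L-functions and of Stark's numbers of the characters in `V` are products of
powers of those of trivial and class group characters.
(6) Over `ℚ`, i.e. for the characters over all number fields `F`, this property of the L-function
`L(s, χ)` characterises the characters `χ` with induced character in `V`.
(7) If Stark's equality `A(χ)^σ = A(χ^σ)` holds up to roots of unity for trivial and for class group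
characters, then it holds up to roots of unity for the characters in `V`, and for all characters
`χ` the defect `A(χ)^σ / A(χ^σ)` is up to roots of unity a product of unique local constants, which
depend only on the restriction of `χ` to the decomposition group.
(8) The same for the algebraicity of Stark's numbers. -/
theorem result : (∀ (K : Type) [Field K] [NumberField K], WellDefined K ∧ Principle K ∧ Examples K ∧
    Isomorphism K ∧ Constants K ∧ Products K ∧ Stark K ∧ Algebraicity K) ∧ LFunctions :=
  ⟨fun _ _ _ => ⟨well_defined, principle, examples, isomorphism, constants, products, stark,
    algebraicity⟩, lfunctions⟩

end Pool.Agent.Results.MP_46b841_nt.StarkDefectIsLocal
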